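import Mathlib

/-!
Definitions for MP_94c136_al: the group `S_∞`, oligomorphic groups, and the topological
groups `Aut(G)`, `Inn(G)`, `Out(G)`.
-/

set_option autoImplicit false

namespace Pool.Agent.Lib.MP_94c136_al

/-- `S_∞`: the group of all permutations of `ℕ`. -/
def SInf : Type := Equiv.Perm ℕ

instance instGroupSInf : Group SInf := inferInstanceAs (Group (Equiv.Perm ℕ))

/-- The underlying function `ℕ → ℕ` of an element of `S_∞`. -/
def SInf.app (g : SInf) : ℕ → ℕ := fun x => Equiv.toFun (show Equiv.Perm ℕ from g) x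

/-- The topology of pointwise convergence on `S_∞` (`ℕ` is discrete). -/
instance instTopSInf : TopologicalSpace SInf :=
  TopologicalSpace.induced SInf.app inferInstance

/-- `S_∞` is a topological group. -/
instance instIsTopologicalGroupSInf : IsTopologicalGroup SInf := by
  have key : ∀ (x y : ℕ), IsOpen {g : SInf | SInf.app g x = y} := fun x y =>
    (isOpen_discrete {y}).preimage
      ((continuous_apply x).comp (continuous_induced_dom (f := SInf.app)))
  have hmul : Continuous fun p : SInf × SInf => p.1 * p.2 := by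
    refine continuous_induced_rng.2 (continuous_pi fun x => ?_)
    refine continuous_discrete_rng.2 fun y => ?_
    have : (fun p : SInf × SInf => (SInf.app ∘ fun p : SInf × SInf => p.1 * p.2) p x) ⁻¹' {y}
        = ⋃ w : ℕ, {g : SInf | SInf.app g w = y} ×ˢ {g : SInf | SInf.app g x = w} := by
      ext p
      simp only [Set.mem_preimage, Function.comp, Set.mem_singleton_iff, Set.mem_iUnion,
        Set.mem_prod, Set.mem_ofPred_eq]
      exact ⟨fun h => ⟨_, h, rfl⟩, fun ⟨w, h1, h2⟩ => by
        rw [← h2] at h1
        exact h1⟩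
    rw [this]
    exact isOpen_iUnion fun w => (key w y).prod (key x w)
  have hinv : Continuous fun g : SInf => g⁻¹ := by
    refine continuous_induced_rng.2 (continuous_pi fun x => ?_)
    refine continuous_discrete_rng.2 fun y => ?_
    have : (fun g : SInf => (SInf.app ∘ fun g : SInf => g⁻¹) g x) ⁻¹' {y}
        = {g : SInf | SInf.app g y = x} := by
      ext g
      exact (Equiv.symm_apply_eq (show Equiv.Perm ℕ from g)).trans eq_comm
    rw [this]
    exact key y x
  exact { continuous_mul := hmul, continuous_inv := hinv }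

/-- The orbit of an `n`-tuple `x` under the diagonal action of `G ≤ S_∞` on `ℕ^n`. -/
def tupleOrbit (G : Subgroup SInf) (n : ℕ) (x : Fin n → ℕ) : Set (Fin n → ℕ) :=
  {y | ∃ g ∈ G, ∀ i, y i = SInf.app g (x i)}

/-- A closed subgroup `G ≤ S_∞` with finitely many orbits on `ℕ^n` for every `n ≥ 1`. -/
def IsOligomorphic (G : Subgroup SInf) : Prop :=
  IsClosed (G : Set SInf) ∧ ∀ n : ℕ, 1 ≤ n → (Set.range (tupleOrbit G n)).Finite

section Aut

variable (G : Type) [Group G] [TopologicalSpace G]

/-- The group automorphisms of `G` that are homeomorphisms, as a subgroup of `MulAut G`. -/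
def topAutSubgroup : Subgroup (MulAut G) where
  carrier := {α | Continuous α ∧ Continuous α.symm}
  one_mem' := ⟨continuous_id, continuous_id⟩
  mul_mem' := fun {_ _} ha hb => ⟨ha.1.comp hb.1, hb.2.comp ha.2⟩
  inv_mem' := fun {_} ha => ⟨ha.2, ha.1⟩

/-- `Aut(G)`: the group of automorphisms of `G` that are homeomorphisms. -/
def Aut : Type := topAutSubgroup G

instance instGroupAut : Group (Aut G) := inferInstanceAs (Group (topAutSubgroup G))

variable {G} in
/-- The underlying map `G → G` of an element of `Aut(G)`. -/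
def Aut.app (α : Aut G) : G → G := fun x => (show topAutSubgroup G from α).1 x

variable {G} in
/-- An open coset: a left coset `gU` of an open subgroup `U`. -/
def IsOpenCoset (A : Set G) : Prop :=
  ∃ U : Subgroup G, IsOpen (U : Set G) ∧ ∃ g : G, A = (fun u => g * u) '' (U : Set G)

/-- The topology on `Aut(G)` of pointwise convergence for its action `A ↦ α(A)` on the
(discrete) set of open cosets: it is generated by the sets `{α | α(A) = B}`, for open cosets
`A` and `B`. -/
instance instTopAut : TopologicalSpace (Aut G) :=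
  TopologicalSpace.generateFrom
    {S | ∃ A B : Set G, IsOpenCoset A ∧ IsOpenCoset B ∧ S = {α | Aut.app α '' A = B}}

/-- `Inn(G)`: the inner automorphisms `x ↦ g x g⁻¹`, as a subgroup of `Aut(G)`. -/
def Inn : Subgroup (Aut G) where
  carrier := {α | ∃ g : G, ∀ x, Aut.app α x = g * x * g⁻¹}
  one_mem' := ⟨1, fun x => by
    rw [one_mul, inv_one, mul_one]
    rfl⟩
  mul_mem' := fun {a b} ⟨g, hg⟩ ⟨h, hh⟩ => ⟨g * h, fun x => by
    have e : Aut.app (a * b) x = Aut.app a (Aut.app b x) := rfl
    rw [e, hh, hg]
    group⟩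
  inv_mem' := fun {a} ⟨g, hg⟩ => ⟨g⁻¹, fun x => by
    have e : Aut.app a (Aut.app a⁻¹ x) = x :=
      MulEquiv.apply_symm_apply (show topAutSubgroup G from a).1 x
    rw [hg] at e
    rw [← e]
    have e' : Aut.app a⁻¹ (g * Aut.app a⁻¹ x * g⁻¹) = Aut.app a⁻¹ x := by rw [e]
    rw [e']
    group⟩

/-- `Inn(G)` is a normal subgroup of `Aut(G)`. -/
instance instNormalInn : (Inn G).Normal where
  conj_mem := fun a ⟨g, hg⟩ b => ⟨Aut.app b g, fun x => by
    have e : Aut.app (b * a * b⁻¹) x = Aut.app b (Aut.app a (Aut.app b⁻¹ x)) := rfl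
    have e1 : Aut.app b (Aut.app b⁻¹ x) = x :=
      MulEquiv.apply_symm_apply (show topAutSubgroup G from b).1 x
    have e2 : ∀ u v : G, Aut.app b (u * v) = Aut.app b u * Aut.app b v :=
      fun u v => map_mul (show topAutSubgroup G from b).1 u v
    have e3 : Aut.app b g⁻¹ = (Aut.app b g)⁻¹ := map_inv (show topAutSubgroup G from b).1 g
    rw [e, hg, e2, e2, e1, e3]⟩

/-- `Out(G) = Aut(G)/Inn(G)`. -/
def Out : Type := Aut G ⧸ Inn G

instance instGroupOut : Group (Out G) := inferInstanceAs (Group (Aut G ⧸ Inn G))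

/-- The quotient topology on `Out(G)`. -/
instance instTopOut : TopologicalSpace (Out G) :=
  inferInstanceAs (TopologicalSpace (Aut G ⧸ Inn G))

end Aut

end Pool.Agent.Lib.MP_94c136_al
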