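import Mathlib
import Pool.Agent.Lib.MP_94c136_al.Defs

-- part Pool.Agent.Lib.MP_94c136_al.BackForth
section

/-!
A generic colouring of the finite subsets of `ℕ` and back-and-forth for such colourings.
-/

set_option autoImplicit false

namespace Pool.Agent.Lib.MP_94c136_al

/-- The extension property of a colouring of the finite subsets of `ℕ`. -/
def ExtProp (c : Finset ℕ → ZMod 2) : Prop :=
  ∀ (A : Finset ℕ) (f : Finset ℕ → ZMod 2), ∃ x, x ∉ A ∧ ∀ S ⊆ A, c (insert x S) = f S

theorem exists_extProp : ∃ c, ExtProp c := by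
  classical
  obtain ⟨s, hs⟩ := exists_surjective_nat (Finset (Finset ℕ))
  let e : ℕ → Finset (Finset ℕ) := fun x => s (Nat.unpair x).1
  refine ⟨fun S => if S.erase (S.sup id) ∈ e (S.sup id) then 1 else 0, fun A f => ?_⟩
  obtain ⟨k, hk⟩ := hs (A.powerset.filter fun S => f S = 1)
  have hx : ∀ a ∈ A, a < Nat.pair k (A.sup id + 1) := fun a ha =>
    lt_of_lt_of_le (Nat.lt_succ_of_le (Finset.le_sup (f := id) ha)) (Nat.right_le_pair _ _)
  refine ⟨Nat.pair k (A.sup id + 1), fun h => lt_irrefl _ (hx _ h), fun S hS => ?_⟩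
  have h1 : (insert (Nat.pair k (A.sup id + 1)) S).sup id = Nat.pair k (A.sup id + 1) := by
    rw [Finset.sup_insert]
    exact sup_eq_left.2 (Finset.sup_le fun a ha => (hx a (hS ha)).le)
  have h2 : Nat.pair k (A.sup id + 1) ∉ S := fun h => lt_irrefl _ (hx _ (hS h))
  have h3 : e (Nat.pair k (A.sup id + 1)) = A.powerset.filter fun S => f S = 1 := by
    simp only [e, Nat.unpair_pair, hk]
  simp only [h1, Finset.erase_insert h2, h3, Finset.mem_filter, Finset.mem_powerset, hS, true_and]
  generalize f S = t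
  revert t
  decide

/-- A finite isomorphism between colourings, given by its graph. -/
def Good (c c' : Finset ℕ → ZMod 2) (P : Finset (ℕ × ℕ)) : Prop :=
  (∀ p ∈ P, ∀ q ∈ P, p.1 = q.1 ↔ p.2 = q.2) ∧
    ∀ Q ⊆ P, c (Q.image Prod.fst) = c' (Q.image Prod.snd)

theorem Good.swap {c c' : Finset ℕ → ZMod 2} {P : Finset (ℕ × ℕ)} (h : Good c c' P) :
    Good c' c (P.image Prod.swap) := by
  refine ⟨fun p hp q hq => ?_, fun Q hQ => ?_⟩
  · obtain ⟨p', hp', rfl⟩ := Finset.mem_image.1 hp
    obtain ⟨q', hq', rfl⟩ := Finset.mem_image.1 hq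
    exact (h.1 p' hp' q' hq').symm
  · have h1 : Q.image Prod.swap ⊆ P := by
      intro p hp
      obtain ⟨q, hq, rfl⟩ := Finset.mem_image.1 hp
      obtain ⟨r, hr, rfl⟩ := Finset.mem_image.1 (hQ hq)
      simpa using hr
    have := h.2 _ h1
    rw [Finset.image_image, Finset.image_image] at this
    exact this.symm

theorem Good.forth {c c' : Finset ℕ → ZMod 2} (hc' : ExtProp c') {P : Finset (ℕ × ℕ)}
    (h : Good c c' P) (a : ℕ) : ∃ b, Good c c' (insert (a, b) P) := by
  classical
  by_cases ha : ∃ b, (a, b) ∈ P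
  · obtain ⟨b, hb⟩ := ha
    exact ⟨b, by rwa [Finset.insert_eq_of_mem hb]⟩
  obtain ⟨b, hb, hcb⟩ := hc' (P.image Prod.snd)
    (fun T => c (insert a ((P.filter fun p => p.2 ∈ T).image Prod.fst)))
  have ha' : ∀ q ∈ P, a ≠ q.1 := fun q hq e => ha ⟨q.2, by rw [e]; exact hq⟩
  have hb' : ∀ q ∈ P, b ≠ q.2 := fun q hq e => hb (e ▸ Finset.mem_image_of_mem _ hq)
  refine ⟨b, fun p hp q hq => ?_, fun Q hQ => ?_⟩
  · rcases Finset.mem_insert.1 hp with rfl | hp <;> rcases Finset.mem_insert.1 hq with rfl | hq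
    · simp
    · exact iff_of_false (ha' q hq) (hb' q hq)
    · exact iff_of_false (ha' p hp).symm (hb' p hp).symm
    · exact h.1 p hp q hq
  · by_cases hab : (a, b) ∈ Q
    · have hQ' : Q.erase (a, b) ⊆ P := by
        intro q hq
        rcases Finset.mem_insert.1 (hQ (Finset.mem_of_mem_erase hq)) with e | e
        · exact absurd e (Finset.ne_of_mem_erase hq)
        · exact e
      have e1 : Q = insert (a, b) (Q.erase (a, b)) := (Finset.insert_erase hab).symm
      have e2 : P.filter (fun p => p.2 ∈ (Q.erase (a, b)).image Prod.snd) = Q.erase (a, b) := by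
        ext p
        rw [Finset.mem_filter]
        constructor
        · rintro ⟨hp, hp2⟩
          obtain ⟨q, hq, e⟩ := Finset.mem_image.1 hp2
          have : q = p := Prod.ext ((h.1 q (hQ' hq) p hp).2 e) e
          exact this ▸ hq
        · exact fun hp => ⟨hQ' hp, Finset.mem_image_of_mem _ hp⟩
      have := hcb _ (Finset.image_subset_image (f := Prod.snd) hQ')
      simp only [e2] at this
      rw [e1, Finset.image_insert, Finset.image_insert]
      exact this.symm
    · refine h.2 Q fun q hq => ?_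
      rcases Finset.mem_insert.1 (hQ hq) with e | e
      · exact absurd (e ▸ hq) hab
      · exact e

theorem Good.back {c c' : Finset ℕ → ZMod 2} (hc : ExtProp c) {P : Finset (ℕ × ℕ)}
    (h : Good c c' P) (b : ℕ) : ∃ a, Good c c' (insert (a, b) P) := by
  obtain ⟨a, ha⟩ := h.swap.forth hc b
  refine ⟨a, ?_⟩
  have := ha.swap
  rwa [Finset.image_insert, Finset.image_image, Prod.swap_swap_eq, Finset.image_id] at this

theorem Good.step {c c' : Finset ℕ → ZMod 2} (hc : ExtProp c) (hc' : ExtProp c')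
    (n : ℕ) (P : {P // Good c c' P}) :
    ∃ P' : {P // Good c c' P}, P.1 ⊆ P'.1 ∧ (∃ b, (n, b) ∈ P'.1) ∧ ∃ a, (a, n) ∈ P'.1 := by
  obtain ⟨b, hb⟩ := P.2.forth hc' n
  obtain ⟨a, ha⟩ := hb.back hc n
  exact ⟨⟨_, ha⟩, (Finset.subset_insert _ _).trans (Finset.subset_insert _ _),
    ⟨b, Finset.mem_insert_of_mem (Finset.mem_insert_self _ _)⟩, a, Finset.mem_insert_self _ _⟩

/-- Back-and-forth: a finite isomorphism extends to a permutation. -/
theorem Good.extend {c c' : Finset ℕ → ZMod 2} (hc : ExtProp c) (hc' : ExtProp c')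
    {P : Finset (ℕ × ℕ)} (h : Good c c' P) :
    ∃ g : Equiv.Perm ℕ, (∀ p ∈ P, g p.1 = p.2) ∧ ∀ S : Finset ℕ, c S = c' (S.image g) := by
  choose st hst1 hst2 hst3 using Good.step hc hc'
  let seq : ℕ → {P // Good c c' P} := fun n => Nat.rec ⟨P, h⟩ (fun n Q => st n Q) n
  have hmono : Monotone fun n => (seq n).1 :=
    monotone_nat_of_le_succ fun n => hst1 n (seq n)
  choose f hf using fun n => hst2 n (seq n)
  choose f' hf' using fun n => hst3 n (seq n)
  have hf1 : ∀ n, (n, f n) ∈ (seq (n + 1)).1 := hf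
  have hf1' : ∀ n, (f' n, n) ∈ (seq (n + 1)).1 := hf'
  have huniq : ∀ n m p q, p ∈ (seq n).1 → q ∈ (seq m).1 → (p.1 = q.1 ↔ p.2 = q.2) :=
    fun n m p q hp hq => (seq (max n m)).2.1 p (hmono (le_max_left n m) hp) q
      (hmono (le_max_right n m) hq)
  let g : Equiv.Perm ℕ :=
    { toFun := f
      invFun := f'
      left_inv := fun n => (huniq (f n + 1) (n + 1) (f' (f n), f n) (n, f n) (hf1' (f n)) (hf1 n)).2 rfl
      right_inv := fun n => (huniq (f' n + 1) (n + 1) (f' n, f (f' n)) (f' n, n) (hf1 (f' n)) (hf1' n)).1 rfl }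
  refine ⟨g, fun p hp => (huniq (p.1 + 1) 0 (p.1, f p.1) p (hf1 p.1) hp).1 rfl, fun S => ?_⟩
  have hsub : S.image (fun a => (a, f a)) ⊆ (seq (S.sup id + 1)).1 := by
    intro q hq
    obtain ⟨a, ha, rfl⟩ := Finset.mem_image.1 hq
    exact hmono (Nat.succ_le_succ (Finset.le_sup (f := id) ha)) (hf1 a)
  have := (seq (S.sup id + 1)).2.2 _ hsub
  rw [Finset.image_image, Finset.image_image] at this
  have e : (Prod.fst ∘ fun a => (a, f a)) = id := rfl
  rw [e, Finset.image_id] at this
  exact this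

end Pool.Agent.Lib.MP_94c136_al
end

-- part Pool.Agent.Lib.MP_94c136_al.Main
section

/-!
The counterexample: an oligomorphic group whose outer automorphism group is not compact.
-/

set_option autoImplicit false

namespace Pool.Agent.Lib.MP_94c136_al

section Abstract

variable {G : Type} [Group G] [TopologicalSpace G]

theorem isOpenCoset_image (α : Aut G) (U : Subgroup G) (hU : IsOpen (U : Set G)) :
    IsOpenCoset (Aut.app α '' (U : Set G)) := by
  let a : topAutSubgroup G := α
  refine ⟨U.map a.1.toMonoidHom, ?_, 1, ?_⟩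
  · have : ((U.map a.1.toMonoidHom : Subgroup G) : Set G) = a.1.symm ⁻¹' (U : Set G) := by
      ext x
      exact Subgroup.mem_map_equiv
    rw [this]
    exact hU.preimage a.2.2
  · simp only [one_mul, Set.image_id']
    rfl

/-- If an open normal subgroup has infinitely many images under `Aut(G)`, then `Out(G)` is
not compact. -/
theorem not_compact_out (U : Subgroup G) [hn : U.Normal] (hU : IsOpen (U : Set G))
    (α : ℕ → Aut G) (hα : Function.Injective fun n => Aut.app (α n) '' (U : Set G)) :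
    ¬ CompactSpace (Out G) := by
  intro hc
  have hinn : ∀ β ∈ Inn G, Aut.app β '' (U : Set G) = U := by
    rintro β ⟨g, hg⟩
    ext x
    constructor
    · rintro ⟨u, hu, rfl⟩
      rw [hg]
      exact hn.conj_mem u hu g
    · intro hx
      refine ⟨g⁻¹ * x * g⁻¹⁻¹, hn.conj_mem x hx g⁻¹, ?_⟩
      rw [hg]
      group
  have hwd : ∀ a b : Aut G, QuotientGroup.leftRel (Inn G) a b →
      Aut.app a '' (U : Set G) = Aut.app b '' (U : Set G) := by
    intro a b hab
    rw [QuotientGroup.leftRel_apply] at hab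
    have e : b = a * (a⁻¹ * b) := by group
    have e2 : Aut.app (a * (a⁻¹ * b)) = Aut.app a ∘ Aut.app (a⁻¹ * b) := rfl
    rw [e, e2, Set.image_comp, hinn _ hab]
  let F : Aut G ⧸ Inn G → Set G := Quotient.lift (fun a => Aut.app a '' (U : Set G)) hwd
  have hopen : ∀ a : Aut G, IsOpen {q : Aut G ⧸ Inn G | F q = Aut.app a '' (U : Set G)} := by
    intro a
    rw [← (QuotientGroup.isQuotientMap_mk (Inn G)).isOpen_preimage]
    refine TopologicalSpace.isOpen_generateFrom_of_mem
      ⟨U, Aut.app a '' (U : Set G), ⟨U, hU, 1, by simp⟩, isOpenCoset_image a U hU, rfl⟩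
  have hc' : CompactSpace (Aut G ⧸ Inn G) := hc
  obtain ⟨t, ht⟩ := isCompact_univ.elim_finite_subcover _ hopen (fun q _ => by
    obtain ⟨a, rfl⟩ := QuotientGroup.mk_surjective q
    exact Set.mem_iUnion.2 ⟨a, rfl⟩)
  have hfin : (Set.range fun n => Aut.app (α n) '' (U : Set G)).Finite := by
    refine (t.finite_toSet.image fun a => Aut.app a '' (U : Set G)).subset ?_
    rintro _ ⟨n, rfl⟩
    obtain ⟨a, ha, h⟩ := Set.mem_iUnion₂.1 (ht (Set.mem_univ (QuotientGroup.mk (α n))))
    exact ⟨a, ha, Eq.symm h⟩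
  exact Set.infinite_range_of_injective hα hfin

end Abstract

theorem app_mul (g h : SInf) (x : ℕ) : SInf.app (g * h) x = SInf.app g (SInf.app h x) := rfl

theorem app_one (x : ℕ) : SInf.app 1 x = x := rfl

theorem app_inv_app (g : SInf) (x : ℕ) : SInf.app g⁻¹ (SInf.app g x) = x := by
  rw [← app_mul, inv_mul_cancel, app_one]

theorem app_app_inv (g : SInf) (x : ℕ) : SInf.app g (SInf.app g⁻¹ x) = x := by
  rw [← app_mul, mul_inv_cancel, app_one]

theorem app_injective (g : SInf) : Function.Injective (SInf.app g) :=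
  Function.LeftInverse.injective (app_inv_app g)

theorem sinf_ext {g h : SInf} (e : ∀ x, SInf.app g x = SInf.app h x) : g = h :=
  Equiv.ext e

theorem continuous_app (x : ℕ) : Continuous fun g : SInf => SInf.app g x :=
  (continuous_apply x).comp (continuous_induced_dom (f := SInf.app))

theorem image_mul (g h : SInf) (S : Finset ℕ) :
    S.image (SInf.app (g * h)) = (S.image (SInf.app h)).image (SInf.app g) := by
  rw [Finset.image_image]
  rfl

theorem image_one (S : Finset ℕ) : S.image (SInf.app 1) = S := by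
  have : SInf.app 1 = id := rfl
  rw [this, Finset.image_id]

theorem card_image (g : SInf) (S : Finset ℕ) : (S.image (SInf.app g)).card = S.card :=
  Finset.card_image_of_injective S (app_injective g)

/-- `g` preserves the set `{0, 1}`. -/
def Pres (g : SInf) : Prop :=
  (SInf.app g 0 = 0 ∧ SInf.app g 1 = 1) ∨ (SInf.app g 0 = 1 ∧ SInf.app g 1 = 0)

theorem Pres.two_le {g : SInf} (hg : Pres g) {x : ℕ} (hx : 2 ≤ x) : 2 ≤ SInf.app g x := by
  have h0 : SInf.app g x ≠ SInf.app g 0 := fun e => by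
    have := app_injective g e
    omega
  have h1 : SInf.app g x ≠ SInf.app g 1 := fun e => by
    have := app_injective g e
    omega
  rcases hg with ⟨a, b⟩ | ⟨a, b⟩ <;> omega

theorem Pres.inv {g : SInf} (hg : Pres g) : Pres g⁻¹ := by
  have h0 := app_inv_app g 0
  have h1 := app_inv_app g 1
  rcases hg with ⟨a, b⟩ | ⟨a, b⟩
  · rw [a] at h0
    rw [b] at h1
    exact Or.inl ⟨h0, h1⟩
  · rw [a] at h0
    rw [b] at h1
    exact Or.inr ⟨h1, h0⟩

theorem Pres.mul {g h : SInf} (hg : Pres g) (hh : Pres h) : Pres (g * h) := by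
  unfold Pres at *
  rw [app_mul, app_mul]
  rcases hg with ⟨a, b⟩ | ⟨a, b⟩ <;> rcases hh with ⟨a', b'⟩ | ⟨a', b'⟩ <;>
    simp [a, b, a', b']

/-- A finite set avoiding `0` and `1`. -/
def Far (S : Finset ℕ) : Prop := ∀ x ∈ S, 2 ≤ x

theorem Far.image {g : SInf} (hg : Pres g) {S : Finset ℕ} (hS : Far S) :
    Far (S.image (SInf.app g)) := by
  intro x hx
  obtain ⟨y, hy, rfl⟩ := Finset.mem_image.1 hx
  exact hg.two_le (hS y hy)

/-- The colour change of `S` under `g`. -/
def chg (c : Finset ℕ → ZMod 2) (g : SInf) (S : Finset ℕ) : ZMod 2 :=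
  c (S.image (SInf.app g)) - c S

theorem chg_mul (c : Finset ℕ → ZMod 2) (g h : SInf) (S : Finset ℕ) :
    chg c (g * h) S = chg c g (S.image (SInf.app h)) + chg c h S := by
  unfold chg
  rw [image_mul]
  ring

theorem chg_one (c : Finset ℕ → ZMod 2) (S : Finset ℕ) : chg c 1 S = 0 := by
  unfold chg
  rw [image_one, sub_self]

theorem continuous_chg (c : Finset ℕ → ZMod 2) (S : Finset ℕ) :
    Continuous fun g : SInf => chg c g S := by
  have h1 : Continuous fun g : SInf => (fun x : S => SInf.app g x) :=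
    continuous_pi fun x => continuous_app x
  have h2 : Continuous fun v : S → ℕ => c (Finset.univ.image v) - c S :=
    continuous_of_discreteTopology
  refine (h2.comp h1).congr fun g => ?_
  simp only [Function.comp, chg]
  congr 2
  ext y
  simp

/-- The group of the counterexample. -/
def grp (c : Finset ℕ → ZMod 2) : Subgroup SInf where
  carrier := {g | Pres g ∧ ∀ S T, Far S → Far T → S.card = T.card → chg c g S = chg c g T}
  one_mem' := ⟨Or.inl ⟨rfl, rfl⟩, fun S T _ _ _ => by rw [chg_one, chg_one]⟩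
  mul_mem' := fun {g h} hg hh => ⟨hg.1.mul hh.1, fun S T hS hT e => by
    rw [chg_mul, chg_mul, hh.2 S T hS hT e,
      hg.2 _ _ (hS.image hh.1) (hT.image hh.1) (by rw [card_image, card_image, e])]⟩
  inv_mem' := fun {g} hg => ⟨hg.1.inv, fun S T hS hT e => by
    have h1 := chg_mul c g g⁻¹ S
    have h2 := chg_mul c g g⁻¹ T
    rw [mul_inv_cancel, chg_one] at h1 h2
    have h3 := hg.2 _ _ (hS.image hg.1.inv) (hT.image hg.1.inv)
      (by rw [card_image, card_image, e])
    rw [h3] at h1
    exact add_left_cancel (h1.symm.trans h2)⟩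

theorem isClosed_grp (c : Finset ℕ → ZMod 2) : IsClosed (grp c : Set SInf) := by
  have h1 : IsClosed {g : SInf | Pres g} :=
    ((isClosed_eq (continuous_app 0) continuous_const).inter
      (isClosed_eq (continuous_app 1) continuous_const)).union
    ((isClosed_eq (continuous_app 0) continuous_const).inter
      (isClosed_eq (continuous_app 1) continuous_const))
  have h2 : IsClosed {g : SInf | ∀ S T, Far S → Far T → S.card = T.card →
      chg c g S = chg c g T} := by
    simp only [Set.ofPred_forall]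
    exact isClosed_iInter fun S => isClosed_iInter fun T => isClosed_iInter fun _ =>
      isClosed_iInter fun _ => isClosed_iInter fun _ =>
        isClosed_eq (continuous_chg c S) (continuous_chg c T)
  exact h1.inter h2

theorem finite_orbits {c : Finset ℕ → ZMod 2} (hc : ExtProp c) (n : ℕ) :
    (Set.range (tupleOrbit (grp c) n)).Finite := by
  classical
  let ex : (Fin n → ℕ) → (Fin n ⊕ Fin 2) → ℕ := fun x => Sum.elim x fun i => i
  let τ : (Fin n → ℕ) → ((Fin n ⊕ Fin 2) → (Fin n ⊕ Fin 2) → Prop) ×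
      (Finset (Fin n ⊕ Fin 2) → ZMod 2) :=
    fun x => (fun i j => ex x i = ex x j, fun I => c (I.image (ex x)))
  have key : ∀ x y, τ x = τ y → ∃ g ∈ grp c, ∀ i, y i = SInf.app g (x i) := by
    intro x y hxy
    have h1 : ∀ i j, ex x i = ex x j ↔ ex y i = ex y j := fun i j =>
      iff_of_eq (congrFun (congrFun (congrArg Prod.fst hxy) i) j)
    have h2 : ∀ I : Finset (Fin n ⊕ Fin 2), c (I.image (ex x)) = c (I.image (ex y)) := fun I =>
      congrFun (congrArg Prod.snd hxy) I
    have hgood : Good c c (Finset.univ.image fun i => (ex x i, ex y i)) := by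
      refine ⟨fun p hp q hq => ?_, fun Q hQ => ?_⟩
      · obtain ⟨i, -, rfl⟩ := Finset.mem_image.1 hp
        obtain ⟨j, -, rfl⟩ := Finset.mem_image.1 hq
        exact h1 i j
      · obtain ⟨I, -, rfl⟩ := Finset.subset_image_iff.1 hQ
        rw [Finset.image_image, Finset.image_image]
        exact h2 I
    obtain ⟨g, hg1, hg2⟩ := hgood.extend hc hc
    have hg3 : ∀ i, g (ex x i) = ex y i := fun i =>
      hg1 (ex x i, ex y i) (Finset.mem_image_of_mem _ (Finset.mem_univ i))
    have hg4 : ∀ S, chg c g S = 0 := fun S => sub_eq_zero.2 (hg2 S).symm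
    refine ⟨g, ⟨Or.inl ⟨hg3 (Sum.inr 0), hg3 (Sum.inr 1)⟩, fun S T _ _ _ => ?_⟩,
      fun i => (hg3 (Sum.inl i)).symm⟩
    rw [hg4, hg4]
  have hfac : (tupleOrbit (grp c) n).FactorsThrough τ := by
    intro x y hxy
    obtain ⟨g, hg, hgx⟩ := key x y hxy
    ext w
    constructor
    · rintro ⟨h, hh, hw⟩
      refine ⟨h * g⁻¹, (grp c).mul_mem hh ((grp c).inv_mem hg), fun i => ?_⟩
      rw [hw, hgx, app_mul, app_inv_app]
    · rintro ⟨h, hh, hw⟩
      refine ⟨h * g, (grp c).mul_mem hh hg, fun i => ?_⟩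
      rw [hw, hgx, app_mul]
  refine (Set.finite_range (Function.extend τ (tupleOrbit (grp c) n) fun _ => ∅)).subset ?_
  rintro _ ⟨x, rfl⟩
  exact ⟨τ x, hfac.extend_apply _ x⟩

/-- The transposition of `0` and `1`. -/
def zz : SInf := Equiv.swap 0 1

theorem app_zz_zero : SInf.app zz 0 = 1 := Equiv.swap_apply_left 0 1

theorem app_zz_one : SInf.app zz 1 = 0 := Equiv.swap_apply_right 0 1

theorem app_zz_far {x : ℕ} (hx : 2 ≤ x) : SInf.app zz x = x :=
  Equiv.swap_apply_of_ne_of_ne (by omega) (by omega)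

theorem chg_zz (c : Finset ℕ → ZMod 2) {S : Finset ℕ} (hS : Far S) : chg c zz S = 0 := by
  unfold chg
  have : S.image (SInf.app zz) = S := by
    conv_rhs => rw [← Finset.image_id (s := S)]
    exact Finset.image_congr fun x hx => app_zz_far (hS x hx)
  rw [this, sub_self]

theorem zz_mem (c : Finset ℕ → ZMod 2) : zz ∈ grp c :=
  ⟨Or.inr ⟨app_zz_zero, app_zz_one⟩, fun S T hS hT _ => by rw [chg_zz c hS, chg_zz c hT]⟩

theorem zz_mul_zz : zz * zz = 1 := Equiv.swap_mul_self 0 1

theorem zz_comm {g : SInf} (hg : Pres g) : zz * g = g * zz := by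
  refine sinf_ext fun x => ?_
  rw [app_mul, app_mul]
  obtain rfl | rfl | hx : x = 0 ∨ x = 1 ∨ 2 ≤ x := by omega
  · rcases hg with ⟨a, b⟩ | ⟨a, b⟩
    · rw [a, app_zz_zero, b]
    · rw [a, app_zz_one, app_zz_zero, b]
  · rcases hg with ⟨a, b⟩ | ⟨a, b⟩
    · rw [b, app_zz_one, a]
    · rw [b, app_zz_one, app_zz_zero, a]
  · rw [app_zz_far hx, app_zz_far (hg.two_le hx)]

/-- A fixed `n`-element set avoiding `0` and `1`. -/
def base (n : ℕ) : Finset ℕ := Finset.Ico 2 (n + 2)

theorem far_base (n : ℕ) : Far (base n) := fun _ hx => (Finset.mem_Ico.1 hx).1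

theorem card_base (n : ℕ) : (base n).card = n := by simp [base]

/-- The `n`-th homomorphism to `ℤ/2`. -/
def phi (c : Finset ℕ → ZMod 2) (n : ℕ) (g : grp c) : ZMod 2 := chg c g.1 (base n)

theorem phi_mul (c : Finset ℕ → ZMod 2) (n : ℕ) (g h : grp c) :
    phi c n (g * h) = phi c n g + phi c n h := by
  unfold phi
  rw [Subgroup.coe_mul, chg_mul,
    g.2.2 _ _ ((far_base n).image h.2.1) (far_base n) (card_image _ _)]

theorem continuous_phi (c : Finset ℕ → ZMod 2) (n : ℕ) : Continuous (phi c n) :=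
  (continuous_chg c _).comp continuous_subtype_val

/-- The central element `zz ^ t`. -/
def zpw (c : Finset ℕ → ZMod 2) (t : ZMod 2) : grp c := if t = 0 then 1 else ⟨zz, zz_mem c⟩

theorem zpw_add (c : Finset ℕ → ZMod 2) (s t : ZMod 2) : zpw c (s + t) = zpw c s * zpw c t := by
  have h2 : ∀ u : ZMod 2, u = 0 ∨ u = 1 := by decide
  have e : (1 : ZMod 2) + 1 = 0 := by decide
  have e' : (1 : ZMod 2) ≠ 0 := by decide
  rcases h2 s with rfl | rfl <;> rcases h2 t with rfl | rfl
  · simp [zpw]
  · simp [zpw]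
  · simp [zpw]
  · rw [e]
    simp only [zpw, if_pos, if_neg e']
    exact Subtype.ext zz_mul_zz.symm

theorem zpw_comm (c : Finset ℕ → ZMod 2) (t : ZMod 2) (g : grp c) :
    zpw c t * g = g * zpw c t := by
  unfold zpw
  split_ifs
  · simp
  · exact Subtype.ext (zz_comm g.2.1)

theorem phi_zpw (c : Finset ℕ → ZMod 2) (n : ℕ) (t : ZMod 2) : phi c n (zpw c t) = 0 := by
  unfold zpw
  split_ifs
  · exact chg_one c _
  · exact chg_zz c (far_base n)

/-- The twisting map `g ↦ g * zz ^ phi n g`. -/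
def tw (c : Finset ℕ → ZMod 2) (n : ℕ) (g : grp c) : grp c := g * zpw c (phi c n g)

theorem tw_tw (c : Finset ℕ → ZMod 2) (n : ℕ) (g : grp c) : tw c n (tw c n g) = g := by
  have e : ∀ u : ZMod 2, u + u = 0 := by decide
  unfold tw
  rw [phi_mul, phi_zpw, add_zero, mul_assoc, ← zpw_add, e]
  simp [zpw]

theorem tw_mul (c : Finset ℕ → ZMod 2) (n : ℕ) (g h : grp c) :
    tw c n (g * h) = tw c n g * tw c n h := by
  unfold tw
  rw [phi_mul, zpw_add, mul_assoc g (zpw c _), ← mul_assoc (zpw c (phi c n g)) h,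
    zpw_comm c (phi c n g) h]
  simp only [mul_assoc]

theorem continuous_tw (c : Finset ℕ → ZMod 2) (n : ℕ) : Continuous (tw c n) :=
  continuous_id.mul ((continuous_of_discreteTopology (f := zpw c)).comp (continuous_phi c n))

/-- The twisting automorphism. -/
def twAut (c : Finset ℕ → ZMod 2) (n : ℕ) : Aut (grp c) :=
  show topAutSubgroup (grp c) from
    ⟨{ toFun := tw c n
       invFun := tw c n
       left_inv := tw_tw c n
       right_inv := tw_tw c n
       map_mul' := tw_mul c n }, continuous_tw c n, continuous_tw c n⟩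

theorem app_twAut (c : Finset ℕ → ZMod 2) (n : ℕ) : Aut.app (twAut c n) = tw c n := rfl

/-- The stabiliser of `0`. -/
def stab (c : Finset ℕ → ZMod 2) : Subgroup (grp c) where
  carrier := {g | SInf.app g.1 0 = 0}
  one_mem' := rfl
  mul_mem' := fun {g h} hg hh => by
    have hg' : SInf.app g.1 0 = 0 := hg
    have hh' : SInf.app h.1 0 = 0 := hh
    show SInf.app (g.1 * h.1) 0 = 0
    rw [app_mul, hh', hg']
  inv_mem' := fun {g} hg => by
    have hg' : SInf.app g.1 0 = 0 := hg
    have := app_inv_app g.1 0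
    rw [hg'] at this
    exact this

instance normal_stab (c : Finset ℕ → ZMod 2) : (stab c).Normal where
  conj_mem := fun u hu g => by
    have hu0 : SInf.app u.1 0 = 0 := hu
    have hu1 : SInf.app u.1 1 = 1 := by
      rcases u.2.1 with ⟨_, b⟩ | ⟨a, _⟩
      · exact b
      · omega
    show SInf.app (g.1 * u.1 * g.1⁻¹) 0 = 0
    rw [app_mul, app_mul]
    have : SInf.app u.1 (SInf.app g.1⁻¹ 0) = SInf.app g.1⁻¹ 0 := by
      rcases g.2.1.inv with ⟨a, _⟩ | ⟨a, _⟩
      · rw [a, hu0]
      · rw [a, hu1]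
    rw [this, app_app_inv]

theorem isOpen_stab (c : Finset ℕ → ZMod 2) : IsOpen (stab c : Set (grp c)) :=
  (isOpen_discrete {0}).preimage ((continuous_app 0).comp continuous_subtype_val)

theorem exists_elt {c : Finset ℕ → ZMod 2} (hc : ExtProp c) {n : ℕ} (hn : 3 ≤ n) :
    ∃ g ∈ stab c, ∀ m, phi c m g = if m = n then 1 else 0 := by
  let c' : Finset ℕ → ZMod 2 := fun S => c S - if S.card = n then 1 else 0
  have hc' : ExtProp c' := by
    intro A f
    obtain ⟨x, hx, h⟩ := hc A fun S => f S + if S.card + 1 = n then 1 else 0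
    refine ⟨x, hx, fun S hS => ?_⟩
    have : (insert x S).card = S.card + 1 := Finset.card_insert_of_notMem fun h => hx (hS h)
    simp only [c', h S hS, this]
    ring
  have hgood : Good c c' {(0, 0), (1, 1)} := by
    refine ⟨by simp, fun Q hQ => ?_⟩
    have h1 : Q.image Prod.fst = Q.image Prod.snd := Finset.image_congr fun q hq => by
      have := hQ hq
      simp only [Finset.mem_insert, Finset.mem_singleton] at this
      rcases this with rfl | rfl <;> rfl
    have h2 : (Q.image Prod.snd).card ≤ 2 :=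
      Finset.card_image_le.trans ((Finset.card_le_card hQ).trans Finset.card_le_two)
    have h3 : (Q.image Prod.snd).card ≠ n := by omega
    simp only [c', h1, if_neg h3, sub_zero]
  obtain ⟨g, hg1, hg2⟩ := hgood.extend hc hc'
  have h0 : g 0 = 0 := hg1 (0, 0) (by simp)
  have h1 : g 1 = 1 := hg1 (1, 1) (by simp)
  have h4 : ∀ S, chg c g S = if S.card = n then 1 else 0 := fun S => by
    have e := hg2 S
    have e2 : (S.image g).card = S.card := Finset.card_image_of_injective S g.injective
    simp only [c', e2] at e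
    show c (S.image g) - c S = _
    rw [e]
    ring
  refine ⟨⟨g, Or.inl ⟨h0, h1⟩, fun S T _ _ e => by rw [h4, h4, e]⟩, h0, fun m => ?_⟩
  show chg c g (base m) = _
  rw [h4, card_base]

theorem injective_images {c : Finset ℕ → ZMod 2} (hc : ExtProp c) :
    Function.Injective fun n => Aut.app (twAut c (n + 3)) '' (stab c : Set (grp c)) := by
  intro n m hnm
  by_contra hne
  obtain ⟨g, hg, hφ⟩ := exists_elt hc (n := n + 3) (by omega)
  have e' : (1 : ZMod 2) ≠ 0 := by decide
  have h1 : tw c (m + 3) g = g := by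
    unfold tw
    rw [hφ, if_neg (by omega)]
    simp [zpw]
  have h2 : g ∈ Aut.app (twAut c (n + 3)) '' (stab c : Set (grp c)) := by
    simp only at hnm
    rw [hnm]
    exact ⟨g, hg, h1⟩
  obtain ⟨u, hu, hug⟩ := h2
  rw [app_twAut] at hug
  have h3 : u = tw c (n + 3) g := by rw [← hug, tw_tw]
  have h4 : u.1 = g.1 * zz := by
    rw [h3]
    unfold tw
    rw [hφ, if_pos rfl]
    simp [zpw, e']
  have hu0 : SInf.app u.1 0 = 0 := hu
  have hg0 : SInf.app g.1 0 = 0 := hg
  rw [h4, app_mul, app_zz_zero] at hu0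
  have := app_injective g.1 (hu0.trans hg0.symm)
  omega

theorem main : ∃ G : Subgroup SInf, IsOligomorphic G ∧ ¬ CompactSpace (Out G) := by
  obtain ⟨c, hc⟩ := exists_extProp
  exact ⟨grp c, ⟨isClosed_grp c, fun n _ => finite_orbits hc n⟩,
    not_compact_out (stab c) (isOpen_stab c) _ (injective_images hc)⟩

end Pool.Agent.Lib.MP_94c136_al
end
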